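import Mathlib

/-!
A loopless digraph on six vertices, all in- and out-degrees equal to `3 = 6/2`, in which
any two directed Hamiltonian cycles have (at least two) arcs in common.
-/

namespace Pool.Agent.Results.MP_fa7ade_co.SixVertices

/-- The adjacency table of the example. -/
def tab : Fin 6 → Fin 6 → Bool :=
  ![![false, false, true, true, false, true],
    ![false, false, true, true, true, false],
    ![true, false, false, false, true, true],
    ![false, true, false, false, true, true],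
    ![true, true, false, true, false, false],
    ![true, true, true, false, false, false]]

/-- Membership of an arc in the arc list of a closed walk of length six. -/
def inWalk (a b c0 c1 c2 c3 c4 c5 : Fin 6) : Bool :=
  (a == c0 && b == c1) || (a == c1 && b == c2) || (a == c2 && b == c3) ||
  (a == c3 && b == c4) || (a == c4 && b == c5) || (a == c5 && b == c0)

/-- The four Hamiltonian cycles, recognised by their arcs. -/
def oneOfFour (c0 c1 c2 c3 c4 c5 : Fin 6) : Bool :=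
  (inWalk 0 2 c0 c1 c2 c3 c4 c5 && inWalk 1 3 c0 c1 c2 c3 c4 c5 &&
    inWalk 4 1 c0 c1 c2 c3 c4 c5 && inWalk 5 0 c0 c1 c2 c3 c4 c5 &&
    inWalk 2 4 c0 c1 c2 c3 c4 c5 && inWalk 3 5 c0 c1 c2 c3 c4 c5) ||
  (inWalk 0 2 c0 c1 c2 c3 c4 c5 && inWalk 1 3 c0 c1 c2 c3 c4 c5 &&
    inWalk 2 5 c0 c1 c2 c3 c4 c5 && inWalk 3 4 c0 c1 c2 c3 c4 c5 &&
    inWalk 5 1 c0 c1 c2 c3 c4 c5 && inWalk 4 0 c0 c1 c2 c3 c4 c5) ||
  (inWalk 4 1 c0 c1 c2 c3 c4 c5 && inWalk 5 0 c0 c1 c2 c3 c4 c5 &&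
    inWalk 2 5 c0 c1 c2 c3 c4 c5 && inWalk 3 4 c0 c1 c2 c3 c4 c5 &&
    inWalk 0 3 c0 c1 c2 c3 c4 c5 && inWalk 1 2 c0 c1 c2 c3 c4 c5) ||
  (inWalk 2 4 c0 c1 c2 c3 c4 c5 && inWalk 3 5 c0 c1 c2 c3 c4 c5 &&
    inWalk 5 1 c0 c1 c2 c3 c4 c5 && inWalk 4 0 c0 c1 c2 c3 c4 c5 &&
    inWalk 0 3 c0 c1 c2 c3 c4 c5 && inWalk 1 2 c0 c1 c2 c3 c4 c5)

theorem walks : ∀ c0 c1 : Fin 6, tab c0 c1 = true → ∀ c2 : Fin 6,
    (tab c1 c2 && c2 != c0) = true →
    ∀ c3 : Fin 6, (tab c2 c3 && (c3 != c0 && c3 != c1)) = true →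
    ∀ c4 : Fin 6, (tab c3 c4 && (c4 != c0 && (c4 != c1 && c4 != c2))) = true →
    ∀ c5 : Fin 6, (tab c4 c5 && (c5 != c0 && (c5 != c1 && (c5 != c2 && (c5 != c3 &&
      tab c5 c0))))) = true → oneOfFour c0 c1 c2 c3 c4 c5 = true := by
  decide

/-- The arcs traversed by a closed sequence. -/
def arcs (c : Fin 6 → Fin 6) : Set (Fin 6 × Fin 6) := {p | ∃ i, p = (c i, c (i + 1))}

theorem inWalk_arcs {a b : Fin 6} {c : Fin 6 → Fin 6}
    (h : inWalk a b (c 0) (c 1) (c 2) (c 3) (c 4) (c 5) = true) : (a, b) ∈ arcs c := by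
  simp only [inWalk, Bool.or_eq_true, Bool.and_eq_true, beq_iff_eq] at h
  rcases h with ((((h | h) | h) | h) | h) | h
  · exact ⟨0, by rw [h.1, h.2]; rfl⟩
  · exact ⟨1, by rw [h.1, h.2]; rfl⟩
  · exact ⟨2, by rw [h.1, h.2]; rfl⟩
  · exact ⟨3, by rw [h.1, h.2]; rfl⟩
  · exact ⟨4, by rw [h.1, h.2]; rfl⟩
  · exact ⟨5, by rw [h.1, h.2]; rfl⟩

/-- The four arc sets. -/
def four : Fin 4 → Finset (Fin 6 × Fin 6) :=
  ![{(0, 2), (1, 3), (4, 1), (5, 0), (2, 4), (3, 5)},
    {(0, 2), (1, 3), (2, 5), (3, 4), (5, 1), (4, 0)},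
    {(4, 1), (5, 0), (2, 5), (3, 4), (0, 3), (1, 2)},
    {(2, 4), (3, 5), (5, 1), (4, 0), (0, 3), (1, 2)}]

theorem four_inter : ∀ i j : Fin 4, ∃ p q : Fin 6 × Fin 6, p ≠ q ∧ p ∈ four i ∧ p ∈ four j ∧
    q ∈ four i ∧ q ∈ four j := by
  have key : ∀ i j : Fin 4, 2 ≤ (four i ∩ four j).card := by decide
  intro i j
  obtain ⟨p, hp, q, hq, hpq⟩ := Finset.one_lt_card.mp (lt_of_lt_of_le one_lt_two (key i j))
  rw [Finset.mem_inter] at hp hq
  exact ⟨p, q, hpq, hp.1, hp.2, hq.1, hq.2⟩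

theorem arcs_four {c : Fin 6 → Fin 6} (hc : Function.Bijective c)
    (h : ∀ i, tab (c i) (c (i + 1)) = true) : ∃ k : Fin 4, ∀ p ∈ four k, p ∈ arcs c := by
  have hne : ∀ i j : Fin 6, i ≠ j → c i ≠ c j := fun i j hij he => hij (hc.1 he)
  have h' := walks (c 0) (c 1) (h 0) (c 2)
    (by simpa using ⟨h 1, hne 2 0 (by decide)⟩) (c 3)
    (by simpa using ⟨h 2, hne 3 0 (by decide), hne 3 1 (by decide)⟩) (c 4)
    (by simpa using ⟨h 3, hne 4 0 (by decide), hne 4 1 (by decide), hne 4 2 (by decide)⟩) (c 5)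
    (by simpa using ⟨h 4, hne 5 0 (by decide), hne 5 1 (by decide), hne 5 2 (by decide),
      hne 5 3 (by decide), h 5⟩)
  simp only [oneOfFour, Bool.or_eq_true, Bool.and_eq_true] at h'
  rcases h' with ((h' | h') | h') | h'
  · refine ⟨0, ?_⟩
    obtain ⟨⟨⟨⟨⟨a1, a2⟩, a3⟩, a4⟩, a5⟩, a6⟩ := h'
    intro p hp
    simp only [four, Matrix.cons_val_zero, Finset.mem_insert, Finset.mem_singleton] at hp
    rcases hp with rfl | rfl | rfl | rfl | rfl | rfl
    exacts [inWalk_arcs a1, inWalk_arcs a2, inWalk_arcs a3, inWalk_arcs a4, inWalk_arcs a5,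
      inWalk_arcs a6]
  · refine ⟨1, ?_⟩
    obtain ⟨⟨⟨⟨⟨a1, a2⟩, a3⟩, a4⟩, a5⟩, a6⟩ := h'
    intro p hp
    simp only [four, Matrix.cons_val_one, Matrix.cons_val_zero, Finset.mem_insert,
      Finset.mem_singleton] at hp
    rcases hp with rfl | rfl | rfl | rfl | rfl | rfl
    exacts [inWalk_arcs a1, inWalk_arcs a2, inWalk_arcs a3, inWalk_arcs a4, inWalk_arcs a5,
      inWalk_arcs a6]
  · refine ⟨2, ?_⟩
    obtain ⟨⟨⟨⟨⟨a1, a2⟩, a3⟩, a4⟩, a5⟩, a6⟩ := h'
    intro p hp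
    simp only [four, Matrix.cons_val, Finset.mem_insert, Finset.mem_singleton] at hp
    rcases hp with rfl | rfl | rfl | rfl | rfl | rfl
    exacts [inWalk_arcs a1, inWalk_arcs a2, inWalk_arcs a3, inWalk_arcs a4, inWalk_arcs a5,
      inWalk_arcs a6]
  · refine ⟨3, ?_⟩
    obtain ⟨⟨⟨⟨⟨a1, a2⟩, a3⟩, a4⟩, a5⟩, a6⟩ := h'
    intro p hp
    simp only [four, Matrix.cons_val, Finset.mem_insert, Finset.mem_singleton] at hp
    rcases hp with rfl | rfl | rfl | rfl | rfl | rfl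
    exacts [inWalk_arcs a1, inWalk_arcs a2, inWalk_arcs a3, inWalk_arcs a4, inWalk_arcs a5,
      inWalk_arcs a6]

/-- The assertion fails for `n = 6`: there is a loopless digraph `D` on six vertices with all
out-degrees and all in-degrees equal to `3 = 6/2` such that any two directed Hamiltonian cycles
`c`, `d` of `D` (bijective closed sequences of vertices, indexed by `Fin 6` with addition mod `6`)
have two distinct arcs in common; in particular `D` has no two edge-disjoint Hamiltonian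
cycles. -/
theorem result :
    ∃ D : Digraph (Fin 6), (∀ v, ¬ D.Adj v v) ∧
      (∀ v, Set.ncard {w | D.Adj v w} = 3) ∧ (∀ v, Set.ncard {w | D.Adj w v} = 3) ∧
      ∀ c d : Fin 6 → Fin 6,
        Function.Bijective c → (∀ i, D.Adj (c i) (c (i + 1))) →
        Function.Bijective d → (∀ i, D.Adj (d i) (d (i + 1))) →
        ∃ p q : Fin 6 × Fin 6, p ≠ q ∧
          (∃ i, p = (c i, c (i + 1))) ∧ (∃ i, p = (d i, d (i + 1))) ∧
          (∃ i, q = (c i, c (i + 1))) ∧ (∃ i, q = (d i, d (i + 1))) := by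
  refine ⟨⟨fun i j => tab i j = true⟩, ?_, ?_, ?_, ?_⟩
  · intro v
    change ¬ tab v v = true
    revert v
    decide
  · intro v
    change Set.ncard {w | tab v w = true} = 3
    have : {w | tab v w = true} = ((Finset.univ.filter fun w => tab v w = true : Finset (Fin 6)) :
        Set (Fin 6)) := by
      ext w; simp
    rw [this, Set.ncard_coe_finset]
    clear this
    revert v
    decide
  · intro v
    change Set.ncard {w | tab w v = true} = 3
    have : {w | tab w v = true} = ((Finset.univ.filter fun w => tab w v = true : Finset (Fin 6)) :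
        Set (Fin 6)) := by
      ext w; simp
    rw [this, Set.ncard_coe_finset]
    clear this
    revert v
    decide
  · intro c d hc h hd h'
    obtain ⟨i, hi⟩ := arcs_four hc h
    obtain ⟨j, hj⟩ := arcs_four hd h'
    obtain ⟨p, q, hpq, hp1, hp2, hq1, hq2⟩ := four_inter i j
    exact ⟨p, q, hpq, hi p hp1, hj p hp2, hi q hq1, hj q hq2⟩

end Pool.Agent.Results.MP_fa7ade_co.SixVertices
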